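import Pool.Agent.V7H85.BS.Base

/-! Fourier rewriting of the sum of Q2. -/

set_option autoImplicit false
set_option linter.unusedSectionVars false

namespace Pool.Agent.V7H24.BS

open Finset
open Pool.Agent.R478.BES
open Pool.Agent.V7H85.BS
open Pool.Agent.Results.MP_2c585b_nt.GoldInverseSum (chi chi_ne_one chi_equiv)

section

variable {F : Type} [Field F] [Fintype F] [DecidableEq F] [CharP F 2]

theorem sum_all (f : F → ℂ) : ∑ y : F, f y = f 0 + ∑ y : Fˣ, f y := by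
  rw [sum_units f]
  have h1 : f 0 = ∑ y : F, if y = 0 then f y else 0 := by simp
  rw [h1, ← Finset.sum_add_distrib]
  refine Finset.sum_congr rfl fun y _ => ?_
  by_cases h : y = 0 <;> simp [h]

/-- step 1 -/
theorem step1 (e : AddChar F ℂ) (σ : F ≃+* F)
    (hfix : ∀ x, σ x = x → x = 0 ∨ x = 1) (v : F) :
    (if v = 0 then 0 else e ((σ v + 1) * σ v / (σ (σ v + v) * (σ v + v)))) =
      (if v = 1 then (1 : ℂ) else 0) + ∑ p : F, if p ^ 2 * (v + σ v) = 1 then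
        e (p ^ 2 * σ p ^ 2 * (σ v ^ 2 + σ v)) else 0 := by
  by_cases h0 : v = 0
  · subst h0
    simp
  by_cases h1 : v = 1
  · subst h1
    simp [CharTwo.add_self_eq_zero]
  have h2 : v + σ v ≠ 0 := by
    intro h
    have h3 : σ v = v := (CharTwo.add_eq_zero.1 h).symm
    rcases hfix v h3 with h | h
    · exact h0 h
    · exact h1 h
  obtain ⟨p0, hp0⟩ := exists_sq (v + σ v)⁻¹
  have h3 : ∀ p : F, p ^ 2 * (v + σ v) = 1 ↔ p = p0 := by
    intro p
    rw [← sq_inj (u := p), ← hp0]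
    constructor
    · intro h
      exact eq_inv_of_mul_eq_one_left h
    · intro h
      rw [h, inv_mul_cancel₀ h2]
  simp only [h3, Finset.sum_ite_eq', mem_univ, if_true, h0, h1, if_false, zero_add]
  congr 1
  have h4 : σ p0 ^ 2 = (σ (v + σ v))⁻¹ := by
    rw [← map_pow, ← hp0, map_inv₀]
  rw [h4, ← hp0]
  have h5 : σ (v + σ v) ≠ 0 := by
    rw [ne_eq, EmbeddingLike.map_eq_zero_iff]
    exact h2
  rw [add_comm (σ v) v]
  field_simp

/-- step 2 -/
theorem step2 (e : AddChar F ℂ) (hne : e ≠ 1) (hsq : ∀ x, e (x ^ 2) = e x) (σ : F ≃+* F)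
    (hσ : ∀ x, e (σ x) = e x) (p : F) (hp : p ≠ 0) :
    (∑ v : F, if p ^ 2 * (v + σ v) = 1 then e (p ^ 2 * σ p ^ 2 * (σ v ^ 2 + σ v)) else 0) =
      ∑ ξ : F, if ξ + σ ξ = p ^ 2 * σ p ^ 2 + p * σ p then e (ξ / p ^ 2) else 0 := by
  have hQ : (Fintype.card F : ℂ) ≠ 0 := by exact_mod_cast Fintype.card_ne_zero
  have hp2 : p ^ 2 ≠ 0 := pow_ne_zero 2 hp
  apply mul_left_cancel₀ hQ
  rw [Finset.mul_sum, Finset.mul_sum]
  have h1 : ∀ v : F, (Fintype.card F : ℂ) * (if p ^ 2 * (v + σ v) = 1 then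
      e (p ^ 2 * σ p ^ 2 * (σ v ^ 2 + σ v)) else 0) =
      ∑ ξ : F, e ((v + σ v + (p ^ 2)⁻¹) * ξ) * e (p ^ 2 * σ p ^ 2 * (σ v ^ 2 + σ v)) := by
    intro v
    rw [← Finset.sum_mul, sum_e e hne]
    have h2 : (v + σ v + (p ^ 2)⁻¹ = 0) ↔ (p ^ 2 * (v + σ v) = 1) := by
      rw [CharTwo.add_eq_zero, ← mul_eq_one_iff_eq_inv₀ hp2, mul_comm]
    simp only [h2]
    split_ifs <;> simp
  rw [Finset.sum_congr rfl fun v _ => h1 v, Finset.sum_comm]
  refine Finset.sum_congr rfl fun ξ _ => ?_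
  have h3 : ∀ v : F, e ((v + σ v + (p ^ 2)⁻¹) * ξ) * e (p ^ 2 * σ p ^ 2 * (σ v ^ 2 + σ v)) =
      e (ξ / p ^ 2) * e ((ξ + σ ξ + (p ^ 2 * σ p ^ 2 + p * σ p)) * σ v) := by
    intro v
    have h4 : (v + σ v + (p ^ 2)⁻¹) * ξ = v * ξ + (σ v * ξ + ξ / p ^ 2) := by
      field_simp
      ring
    have h5 : p ^ 2 * σ p ^ 2 * (σ v ^ 2 + σ v) = (p * σ p * σ v) ^ 2 + p ^ 2 * σ p ^ 2 * σ v := by
      ring
    have h6 : (ξ + σ ξ + (p ^ 2 * σ p ^ 2 + p * σ p)) * σ v =
        σ (v * ξ) + (σ v * ξ + (p * σ p * σ v + p ^ 2 * σ p ^ 2 * σ v)) := by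
      rw [map_mul]
      ring
    rw [h4, h5, h6]
    simp only [AddChar.map_add_eq_mul, hσ, hsq]
    ring
  rw [Finset.sum_congr rfl fun v _ => h3 v, ← Finset.mul_sum]
  have h7 : ∑ v : F, e ((ξ + σ ξ + (p ^ 2 * σ p ^ 2 + p * σ p)) * σ v) =
      ∑ w : F, e ((ξ + σ ξ + (p ^ 2 * σ p ^ 2 + p * σ p)) * w) :=
    Fintype.sum_equiv σ.toEquiv _ _ fun v => rfl
  rw [h7, sum_e e hne]
  simp only [CharTwo.add_eq_zero (a := ξ + σ ξ)]
  split_ifs
  · ring
  · simp

/-- step 4 -/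
theorem step4 (e : AddChar F ℂ) (hsq : ∀ x, e (x ^ 2) = e x) (σ : F ≃+* F) :
    ∑ p : Fˣ, ∑ ξ : Fˣ, (if (ξ : F) + σ ξ = (p : F) ^ 2 * σ p ^ 2 + p * σ p then
        e ((ξ : F) / (p : F) ^ 2) else 0) =
      ∑ x : Fˣ, ∑ g : Fˣ, if (g : F) ^ 2 + σ g ^ 2 + (x * σ x) * (g * σ g) + (x * σ x) ^ 2 = 0 then
        e (x : F)⁻¹ else 0 := by
  rw [Finset.sum_comm (f := fun (x g : Fˣ) =>
    if (g : F) ^ 2 + σ g ^ 2 + (x * σ x) * (g * σ g) + (x * σ x) ^ 2 = 0 then
        e (x : F)⁻¹ else 0)]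
  have h1 : ∀ g : Fˣ, ∑ x : Fˣ, (if (g : F) ^ 2 + σ g ^ 2 + (x * σ x) * (g * σ g) +
      (x * σ x) ^ 2 = 0 then e (x : F)⁻¹ else 0) =
      ∑ p : Fˣ, if (g : F) ^ 2 + σ g ^ 2 + ((p * g : F) * σ (p * g : F)) * (g * σ g) +
        ((p * g : F) * σ (p * g : F)) ^ 2 = 0 then e (p * g : F)⁻¹ else 0 := by
    intro g
    symm
    refine Fintype.sum_equiv (Equiv.mulRight g) _ _ fun p => ?_
    simp
  rw [Finset.sum_congr rfl fun g _ => h1 g]
  symm
  rw [Finset.sum_comm]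
  refine Finset.sum_congr rfl fun p _ => ?_
  refine Fintype.sum_equiv (Equiv.ofBijective (fun g : Fˣ => (g ^ 2)⁻¹) ?_) _ _ fun g => ?_
  · rw [← Finite.injective_iff_bijective]
    intro a b h
    have h2 : a ^ 2 = b ^ 2 := inv_injective h
    ext
    apply sq_inj.1
    exact_mod_cast congrArg (Units.val) h2
  · simp only [Equiv.ofBijective_apply]
    have hg : (g : F) ≠ 0 := g.ne_zero
    have hp : (p : F) ≠ 0 := p.ne_zero
    have hg' : σ (g : F) ≠ 0 := by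
      rw [ne_eq, EmbeddingLike.map_eq_zero_iff]
      exact hg
    have h3 : (((g ^ 2)⁻¹ : Fˣ) : F) = ((g : F) ^ 2)⁻¹ := by
      simp
    rw [h3]
    have h4 : ((g : F) ^ 2)⁻¹ / (p : F) ^ 2 = ((p * g : F)⁻¹) ^ 2 := by
      field_simp
    rw [h4, hsq]
    have h5 : (((g : F) ^ 2)⁻¹ + σ ((g : F) ^ 2)⁻¹ = (p : F) ^ 2 * σ p ^ 2 + p * σ p) ↔
        ((g : F) ^ 2 + σ g ^ 2 + ((p * g : F) * σ (p * g : F)) * (g * σ g) +
        ((p * g : F) * σ (p * g : F)) ^ 2 = 0) := by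
      have h6 : (g : F) ^ 2 + σ g ^ 2 + ((p * g : F) * σ (p * g : F)) * (g * σ g) +
          ((p * g : F) * σ (p * g : F)) ^ 2 =
          (g : F) ^ 2 * σ g ^ 2 * ((((g : F) ^ 2)⁻¹ + σ ((g : F) ^ 2)⁻¹) +
            ((p : F) ^ 2 * σ p ^ 2 + p * σ p)) := by
        rw [map_mul, map_inv₀, map_pow]
        field_simp
        ring
      rw [h6, mul_eq_zero, CharTwo.add_eq_zero]
      constructor
      · intro h
        exact Or.inr h
      · rintro (h | h)
        · exfalso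
          rcases mul_eq_zero.1 h with h | h
          · exact hg (pow_eq_zero_iff two_ne_zero |>.1 h)
          · exact hg' (pow_eq_zero_iff two_ne_zero |>.1 h)
        · exact h
    simp only [h5]

theorem fou (e : AddChar F ℂ) (hne : e ≠ 1) (hsq : ∀ x, e (x ^ 2) = e x) (σ : F ≃+* F)
    (hσ : ∀ x, e (σ x) = e x) (hfix2 : ∀ x, σ (σ x) = x → x = 0 ∨ x = 1) :
    ∑ v : Fˣ, e ((σ v + 1) * σ v / (σ (σ v + v) * (σ v + v))) =
      2 + ∑ x : Fˣ, e (x : F)⁻¹ * ((univ.filter fun g : F =>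
        g ^ 2 + σ g ^ 2 + (x * σ x) * (g * σ g) + (x * σ x) ^ 2 = 0).card : ℂ) := by
  have hfix : ∀ x, σ x = x → x = 0 ∨ x = 1 := fun x hx => hfix2 x (by rw [hx, hx])
  rw [sum_units (fun v : F => e ((σ v + 1) * σ v / (σ (σ v + v) * (σ v + v)))),
    Finset.sum_congr rfl fun v _ => step1 e σ hfix v, Finset.sum_add_distrib,
    Finset.sum_ite_eq', Finset.sum_comm, sum_all (fun p : F => ∑ v : F,
      if p ^ 2 * (v + σ v) = 1 then e (p ^ 2 * σ p ^ 2 * (σ v ^ 2 + σ v)) else 0)]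
  have h1 : ∀ p : Fˣ, (∑ v : F, if (p : F) ^ 2 * (v + σ v) = 1 then
      e ((p : F) ^ 2 * σ p ^ 2 * (σ v ^ 2 + σ v)) else 0) =
      (if p = 1 then (1 : ℂ) else 0) + ∑ ξ : Fˣ, (if (ξ : F) + σ ξ = (p : F) ^ 2 * σ p ^ 2 + p * σ p
        then e ((ξ : F) / (p : F) ^ 2) else 0) := by
    intro p
    rw [step2 e hne hsq σ hσ p p.ne_zero, sum_all (fun ξ : F =>
      if ξ + σ ξ = (p : F) ^ 2 * σ p ^ 2 + p * σ p then e (ξ / (p : F) ^ 2) else 0)]
    congr 1
    have h2 : ((0 : F) + σ 0 = (p : F) ^ 2 * σ p ^ 2 + p * σ p) ↔ p = 1 := by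
      rw [map_zero, add_zero]
      constructor
      · intro h
        have h3 : ((p : F) * σ p) * ((p : F) * σ p + 1) = 0 := by
          rw [h]
          ring
        have hp' : σ (p : F) ≠ 0 := by
          rw [ne_eq, EmbeddingLike.map_eq_zero_iff]
          exact p.ne_zero
        have h4 : (p : F) * σ p = 1 := by
          rcases mul_eq_zero.1 h3 with h | h
          · exact absurd h (mul_ne_zero p.ne_zero hp')
          · exact CharTwo.add_eq_zero.1 h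
        have h5 : σ (p : F) = (p : F)⁻¹ := eq_inv_of_mul_eq_one_right h4
        have h6 : σ (σ (p : F)) = p := by
          rw [h5, map_inv₀, h5, inv_inv]
        rcases hfix2 _ h6 with h | h
        · exact absurd h p.ne_zero
        · ext
          exact h
      · rintro rfl
        simp [CharTwo.add_self_eq_zero]
    by_cases h : p = 1
    · rw [if_pos (h2.2 h), if_pos h]
      simp
    · rw [if_neg fun h' => h (h2.1 h'), if_neg h]
  rw [Finset.sum_congr rfl fun p _ => h1 p, Finset.sum_add_distrib, Finset.sum_ite_eq',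
    step4 e hsq σ]
  have h7 : ∀ x : Fˣ, e (x : F)⁻¹ * ((univ.filter fun g : F =>
        g ^ 2 + σ g ^ 2 + (x * σ x) * (g * σ g) + (x * σ x) ^ 2 = 0).card : ℂ) =
      ∑ g : Fˣ, if (g : F) ^ 2 + σ g ^ 2 + (x * σ x) * (g * σ g) + (x * σ x) ^ 2 = 0 then
        e (x : F)⁻¹ else 0 := by
    intro x
    have h8 : ((univ.filter fun g : F =>
        g ^ 2 + σ g ^ 2 + (x * σ x) * (g * σ g) + (x * σ x) ^ 2 = 0).card : ℂ) =
        ∑ g : F, if g ^ 2 + σ g ^ 2 + (x * σ x) * (g * σ g) + (x * σ x) ^ 2 = 0 then (1 : ℂ)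
          else 0 := by
      rw [Finset.sum_boole]
    rw [h8, Finset.mul_sum, sum_all]
    have hx' : σ (x : F) ≠ 0 := by
      rw [ne_eq, EmbeddingLike.map_eq_zero_iff]
      exact x.ne_zero
    have h9 : ¬ ((0 : F) ^ 2 + σ 0 ^ 2 + (x * σ x) * (0 * σ 0) + (x * σ x) ^ 2 = 0) := by
      simp [hx']
    rw [if_neg h9, mul_zero, zero_add]
    refine Finset.sum_congr rfl fun g _ => ?_
    split_ifs <;> simp
  rw [Finset.sum_congr rfl fun x _ => h7 x]
  simp
  ring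

end

/-- **Piece FOU.** -/
theorem t_FOU : S_FOU := by
  intro F _ _ _ _ n k hn hF hk hkn
  haveI : CharP F 2 := charP_of_injective_algebraMap (algebraMap (ZMod 2) F).injective 2
  have hsq : ∀ x : F, chi F (x ^ 2) = chi F x := by
    intro x
    have := chi_equiv (frobeniusEquiv F 2) x
    simpa [frobenius_def] using this
  have hσ : ∀ x : F, iterateFrobeniusEquiv F 2 k x = x ^ 2 ^ k := fun x => by
    rw [iterateFrobeniusEquiv_def]
  have hfix2 : ∀ x : F, iterateFrobeniusEquiv F 2 k (iterateFrobeniusEquiv F 2 k x) = x →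
      x = 0 ∨ x = 1 := by
    intro x hx
    rw [hσ, hσ, ← pow_mul, ← pow_add] at hx
    have h1 : Function.IsPeriodicPt (frobenius F 2) (k + k) x := by
      unfold Function.IsPeriodicPt Function.IsFixedPt
      rw [iterate_frobenius]
      exact hx
    have h2 : Function.IsPeriodicPt (frobenius F 2) n x := by
      unfold Function.IsPeriodicPt Function.IsFixedPt
      rw [iterate_frobenius, ← hF, FiniteField.pow_card]
    have h3 := h1.gcd h2
    have h4 : Nat.gcd (k + k) n = 1 := by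
      rw [← two_mul]
      exact Nat.Coprime.mul_left (Nat.coprime_two_left.2 hn) hkn
    rw [h4] at h3
    have h5 : x ^ 2 = x := by
      have := h3
      unfold Function.IsPeriodicPt Function.IsFixedPt at this
      simpa [frobenius_def] using this
    have h6 : x * (x - 1) = 0 := by
      rw [mul_sub, mul_one, ← sq, h5, sub_self]
    rcases mul_eq_zero.1 h6 with h | h
    · exact Or.inl h
    · exact Or.inr (sub_eq_zero.1 h)
  have key := fou (chi F) chi_ne_one hsq (iterateFrobeniusEquiv F 2 k) (chi_equiv _) hfix2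
  simp only [hσ] at key
  unfold Nk
  rw [← key]
  refine Finset.sum_congr rfl fun v _ => ?_
  rw [pow_succ]

end Pool.Agent.V7H24.BS
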