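import Pool.Agent.V7H58.BS.GD

/-! Project BS, piece CNT: counting the points `(g, g^(2^k))` on the conic. -/

set_option autoImplicit false
set_option linter.unusedSectionVars false

namespace Pool.Agent.V7H24.BS

open Finset
open Pool.Agent.V7H85.BS
open Pool.Agent.V7H58.BS
open Pool.Agent.Results.MP_2c585b_nt.GoldInverseSum (chi)

section

/-- Bezout -/
lemma bez {m N d : ℕ} (hN : 0 < N) (h : Nat.gcd m N = d) : ∃ j, m * j % N = d % N := by
  by_cases hd : d < N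
  · obtain ⟨j, -, hj⟩ := Nat.exists_mul_mod_eq_gcd (k := N) (n := m) (by rw [h]; exact hd)
    exact ⟨j, by rw [hj, h, Nat.mod_eq_of_lt hd]⟩
  · have h1 : d ∣ N := h ▸ Nat.gcd_dvd_right m N
    have h2 : d = N := le_antisymm (Nat.le_of_dvd hN h1) (not_lt.1 hd)
    exact ⟨0, by rw [h2]; simp⟩

lemma pow_red {M : Type*} [Monoid M] {x : M} {N a b : ℕ} (hx : x ^ N = 1) (h : a % N = b % N) :
    x ^ a = x ^ b := by
  rw [pow_eq_pow_mod a hx, pow_eq_pow_mod b hx, h]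

variable {L : Type} [Field L]

lemma count_one {m N : ℕ} (hN : 0 < N) (h : Nat.gcd m N = 1) {θ : L} (hθ : θ ^ N = 1) :
    ∃ S : Finset L, S.card = 1 ∧ ∀ σ, σ ∈ S ↔ (σ ^ N = 1 ∧ σ ^ m = θ) := by
  obtain ⟨j, hj⟩ := bez hN h
  refine ⟨{θ ^ j}, card_singleton _, fun σ => ?_⟩
  rw [mem_singleton]
  constructor
  · rintro rfl
    refine ⟨by rw [← pow_mul, mul_comm, pow_mul, hθ, one_pow], ?_⟩
    rw [← pow_mul, mul_comm, pow_red hθ hj, pow_one]
  · rintro ⟨h1, rfl⟩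
    rw [← pow_mul, pow_red h1 hj, pow_one]

lemma count_three [IsAlgClosed L] {m N K : ℕ} (hN : N = 3 * K) (hK : 0 < K)
    (h : Nat.gcd m N = 3) {w : L} (hw1 : w ≠ 1) (hw : w ^ 2 + w + 1 = 0) {θ : L} (hθ : θ ^ K = 1) :
    ∃ S : Finset L, S.card = 3 ∧ ∀ σ, σ ∈ S ↔ (σ ^ N = 1 ∧ σ ^ m = θ) := by
  classical
  obtain ⟨j, hj⟩ := bez (by omega : 0 < N) h
  obtain ⟨m', rfl⟩ : 3 ∣ m := h ▸ Nat.gcd_dvd_left m N
  obtain ⟨y, hy⟩ := IsAlgClosed.exists_pow_nat_eq (θ ^ j) (by norm_num : 0 < 3)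
  have hθ0 : θ ≠ 0 := by
    rintro rfl
    rw [zero_pow hK.ne'] at hθ
    exact zero_ne_one hθ
  have hy0 : y ≠ 0 := by
    rintro rfl
    have : θ ^ j ≠ 0 := pow_ne_zero _ hθ0
    apply this
    rw [← hy]
    norm_num
  have hw0 : w ≠ 0 := by
    rintro rfl
    simp at hw
  have hw3 : w ^ 3 = 1 := by linear_combination (w - 1) * hw
  have hw2 : w ^ 2 ≠ 1 := by
    intro h2
    apply hw1
    have : w ^ 3 = w := by rw [pow_succ, h2, one_mul]
    rw [← this, hw3]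
  refine ⟨{y, w * y, w ^ 2 * y}, ?_, fun σ => ?_⟩
  · rw [card_eq_three]
    refine ⟨y, w * y, w ^ 2 * y, ?_, ?_, ?_, rfl⟩
    · intro h2
      exact hw1 (mul_right_cancel₀ hy0 (by rw [one_mul]; exact h2)).symm
    · intro h2
      exact hw2 (mul_right_cancel₀ hy0 (by rw [one_mul]; exact h2)).symm
    · intro h2
      have h3 : w = w ^ 2 := mul_right_cancel₀ hy0 h2
      apply hw1
      have h4 : w * 1 = w * w := by rw [mul_one, ← sq]; exact h3
      exact (mul_left_cancel₀ hw0 h4).symm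
  · constructor
    · intro h2
      have h3 : σ ^ 3 = θ ^ j := by
        simp only [mem_insert, mem_singleton] at h2
        rcases h2 with rfl | rfl | rfl
        · exact hy
        · rw [mul_pow, hw3, one_mul, hy]
        · rw [mul_pow, ← pow_mul, mul_comm 2 3, pow_mul, hw3, one_pow, one_mul, hy]
      constructor
      · rw [hN, pow_mul, h3, ← pow_mul, mul_comm, pow_mul, hθ, one_pow]
      · rw [pow_mul, h3, ← pow_mul]
        have h4 : 3 * ((m' * j) % K) = 3 * (1 % K) := by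
          rw [← Nat.mul_mod_mul_left, ← Nat.mul_mod_mul_left, ← mul_assoc, ← hN, mul_one]
          exact hj
        have h5 : (j * m') % K = 1 % K := by
          rw [mul_comm]
          omega
        rw [pow_red hθ h5, pow_one]
    · rintro ⟨h2, h3⟩
      have h4 : σ ^ 3 = y ^ 3 := by
        rw [hy, ← h3, ← pow_mul, pow_red h2 hj]
      have h5 : (σ - y) * ((σ - w * y) * (σ - w ^ 2 * y)) = 0 := by
        linear_combination (-y * σ ^ 2 + w * y ^ 2 * σ - (w - 1) * y ^ 3) * hw + h4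
      simp only [mem_insert, mem_singleton]
      rcases mul_eq_zero.1 h5 with h6 | h6
      · exact Or.inl (sub_eq_zero.1 h6)
      · rcases mul_eq_zero.1 h6 with h7 | h7
        · exact Or.inr (Or.inl (sub_eq_zero.1 h7))
        · exact Or.inr (Or.inr (sub_eq_zero.1 h7))

lemma count_zero {m N K : ℕ} (hN : N = 3 * K)
    (h : Nat.gcd m N = 3) {θ : L} (hθ : θ ^ K ≠ 1) :
    ∃ S : Finset L, S.card = 0 ∧ ∀ σ, σ ∈ S ↔ (σ ^ N = 1 ∧ σ ^ m = θ) := by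
  obtain ⟨m', rfl⟩ : 3 ∣ m := h ▸ Nat.gcd_dvd_left m N
  refine ⟨∅, card_empty, fun σ => ?_⟩
  constructor
  · intro h2
    simp at h2
  · rintro ⟨h1, rfl⟩
    exfalso
    apply hθ
    rw [← pow_mul, show 3 * m' * K = 3 * K * m' by ring, ← hN, pow_mul, h1, one_pow]

end

section

/-! Greatest common divisors. -/

lemma sq_sub (k : ℕ) : 2 ^ (2 * k) - 1 = (2 ^ k - 1) * (2 ^ k + 1) := by
  have h : 1 ≤ 2 ^ k := Nat.one_le_two_pow
  obtain ⟨a, ha⟩ := Nat.exists_eq_add_of_le h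
  have h2 : 2 ^ (2 * k) = (2 ^ k) ^ 2 := by rw [← pow_mul, mul_comm]
  rw [h2, ha]
  have : 1 + a - 1 = a := by omega
  rw [this]
  have h3 : (1 + a) ^ 2 = a * (1 + a + 1) + 1 := by ring
  rw [h3]
  omega

lemma dvd_three {k : ℕ} (hk : Odd k) : 3 ∣ 2 ^ k + 1 := by
  obtain ⟨m, rfl⟩ := hk
  induction m with
  | zero => norm_num
  | succ m ih =>
    obtain ⟨c, hc⟩ := ih
    refine ⟨4 * c - 1, ?_⟩
    have h : 2 ^ (2 * (m + 1) + 1) = 4 * 2 ^ (2 * m + 1) := by ring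
    rw [h]
    generalize 2 ^ (2 * m + 1) = x at hc
    omega

lemma dvd_three' {k : ℕ} (hk : Even k) : 3 ∣ 2 ^ k - 1 ∧ ¬ 3 ∣ 2 ^ k + 1 := by
  obtain ⟨m, rfl⟩ := hk
  induction m with
  | zero => norm_num
  | succ m ih =>
    have : 2 ^ (m + 1 + (m + 1)) = 4 * 2 ^ (m + m) := by ring
    have h1 : 1 ≤ 2 ^ (m + m) := Nat.one_le_two_pow
    omega

variable {n k : ℕ}

lemma g1 (hkn : Nat.Coprime k n) : Nat.gcd (2 ^ k - 1) (2 ^ n - 1) = 1 := by
  rw [Nat.pow_sub_one_gcd_pow_sub_one, hkn]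
  norm_num

lemma g2 (hn : Odd n) (hkn : Nat.Coprime k n) : Nat.gcd (2 ^ k + 1) (2 ^ n - 1) = 1 := by
  have h1 : Nat.gcd (2 ^ k + 1) (2 ^ n - 1) ∣ Nat.gcd (2 ^ (2 * k) - 1) (2 ^ n - 1) := by
    apply Nat.gcd_dvd_gcd_of_dvd_left
    rw [sq_sub]
    exact Dvd.intro_left _ rfl
  have h2 : Nat.gcd (2 * k) n = 1 := Nat.Coprime.mul_left (Nat.coprime_two_left.2 hn) hkn
  rw [Nat.pow_sub_one_gcd_pow_sub_one, h2] at h1
  simpa using h1

lemma g3 (hk : Odd k) (hkn : Nat.Coprime k n) : Nat.gcd (2 ^ k - 1) (2 ^ n + 1) = 1 := by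
  have h1 : Nat.gcd (2 ^ k - 1) (2 ^ n + 1) ∣ Nat.gcd (2 ^ k - 1) (2 ^ (2 * n) - 1) := by
    apply Nat.gcd_dvd_gcd_of_dvd_right
    rw [sq_sub]
    exact Dvd.intro_left _ rfl
  have h2 : Nat.gcd k (2 * n) = 1 := Nat.Coprime.mul_right (Nat.coprime_two_right.2 hk) hkn
  rw [Nat.pow_sub_one_gcd_pow_sub_one, h2] at h1
  simpa using h1

lemma g4 (hn : Odd n) (hk : Even k) (hkn : Nat.Coprime k n) :
    Nat.gcd (2 ^ k - 1) (2 ^ n + 1) = 3 := by
  have h1 : Nat.gcd (2 ^ k - 1) (2 ^ n + 1) ∣ Nat.gcd (2 ^ k - 1) (2 ^ (2 * n) - 1) := by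
    apply Nat.gcd_dvd_gcd_of_dvd_right
    rw [sq_sub]
    exact Dvd.intro_left _ rfl
  have h2 : Nat.gcd k (2 * n) = 2 := by
    obtain ⟨m, hm⟩ := hk
    rw [show k = 2 * m by omega, Nat.gcd_mul_left]
    have : Nat.gcd m n = 1 := Nat.Coprime.coprime_dvd_left ⟨2, by omega⟩ hkn
    rw [this]
  rw [Nat.pow_sub_one_gcd_pow_sub_one, h2] at h1
  exact Nat.dvd_antisymm h1 (Nat.dvd_gcd (dvd_three' hk).1 (dvd_three hn))

lemma g5 (hkn : Nat.Coprime k n) : Nat.gcd (2 ^ k + 1) (2 ^ n + 1) ∣ 3 := by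
  have h1 : Nat.gcd (2 ^ k + 1) (2 ^ n + 1) ∣ Nat.gcd (2 ^ (2 * k) - 1) (2 ^ (2 * n) - 1) := by
    rw [sq_sub, sq_sub]
    exact Nat.dvd_gcd ((Nat.gcd_dvd_left _ _).trans (Dvd.intro_left _ rfl))
      ((Nat.gcd_dvd_right _ _).trans (Dvd.intro_left _ rfl))
  have h2 : Nat.gcd (2 * k) (2 * n) = 2 := by
    rw [Nat.gcd_mul_left]
    have : Nat.gcd k n = 1 := hkn
    rw [this]
  rw [Nat.pow_sub_one_gcd_pow_sub_one, h2] at h1
  exact h1

lemma g6 (hn : Odd n) (hk : Odd k) (hkn : Nat.Coprime k n) :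
    Nat.gcd (2 ^ k + 1) (2 ^ n + 1) = 3 :=
  Nat.dvd_antisymm (g5 hkn) (Nat.dvd_gcd (dvd_three hk) (dvd_three hn))

lemma g7 (hk : Even k) (hkn : Nat.Coprime k n) :
    Nat.gcd (2 ^ k + 1) (2 ^ n + 1) = 1 := by
  rcases (Nat.dvd_prime Nat.prime_three).1 (g5 hkn) with h | h
  · exact h
  · exfalso
    apply (dvd_three' hk).2
    rw [← h]
    exact Nat.gcd_dvd_left _ _

end

section

variable {F : Type} [Field F] [Fintype F] [DecidableEq F] [CharP F 2] {n : ℕ}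

lemma two_inj (k : ℕ) {x : Om F} (h : x ^ 2 ^ k = 1) : x = 1 := by
  have h1 : (x + 1) ^ 2 ^ k = 0 := by
    rw [add_pow_char_pow, h, one_pow, CharTwo.add_self_eq_zero]
  exact CharTwo.add_eq_zero.1 (eq_zero_of_pow_eq_zero h1)

/-- the solutions come from the solutions of two equations for `σ` -/
lemma core {a : F} (hq : Fintype.card F = 2 ^ n) {θ : Om F} (hθ0 : θ ≠ 0) (hθ1 : θ ≠ 1)
    (ha : θ + θ⁻¹ = io a) (k : ℕ) {S1 S2 : Finset (Om F)}
    (h1 : ∀ σ, σ ∈ S1 ↔ (σ ≠ 0 ∧ (σ ^ Fintype.card F = σ ∨ σ ^ (Fintype.card F + 1) = 1) ∧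
      σ ^ 2 ^ k = θ * σ))
    (h2 : ∀ σ, σ ∈ S2 ↔ (σ ≠ 0 ∧ (σ ^ Fintype.card F = σ ∨ σ ^ (Fintype.card F + 1) = 1) ∧
      σ ^ 2 ^ k * σ = θ)) : Nk F k a = S1.card + S2.card := by
  classical
  have hθθ : θ * θ ≠ 1 := fun h => hθ1 (sq_one h)
  have hone : ∀ σ : Om F, σ = 1 → σ ^ 2 ^ k = 1 := fun σ h => by rw [h, one_pow]
  have hdisj : Disjoint S1 S2 := by
    rw [Finset.disjoint_left]
    intro σ hσ1 hσ2
    obtain ⟨h0, -, h3⟩ := (h1 σ).1 hσ1
    obtain ⟨-, -, h4⟩ := (h2 σ).1 hσ2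
    rw [h3] at h4
    have h5 : σ * σ = 1 := mul_left_cancel₀ hθ0 (by rw [mul_one, ← mul_assoc]; exact h4)
    have h6 := sq_one h5
    rw [h6, one_pow, mul_one] at h3
    exact hθ1 h3.symm
  -- no `σ ∈ S1 ∪ S2` with `σ⁻¹ ∈ S1 ∪ S2`
  have hinv : ∀ σ τ : Om F, σ ∈ S1 ∪ S2 → τ ∈ S1 ∪ S2 → σ * τ ≠ 1 := by
    have key : ∀ σ τ : Om F, σ ∈ S1 → τ ∈ S2 → σ * τ ≠ 1 := by
      intro σ τ hσ hτ hst
      obtain ⟨h0, -, h3⟩ := (h1 σ).1 hσ
      obtain ⟨h0', -, h4⟩ := (h2 τ).1 hτ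
      have h5 : σ ^ 2 ^ k * τ ^ 2 ^ k = 1 := by rw [← mul_pow, hst, one_pow]
      have h6 : (θ * σ) * (θ * σ) = 1 := by
        have h7 : θ * σ * (τ ^ 2 ^ k * τ) * σ = σ * τ := by
          rw [← h3]
          calc σ ^ 2 ^ k * (τ ^ 2 ^ k * τ) * σ = (σ ^ 2 ^ k * τ ^ 2 ^ k) * (σ * τ) := by ring
            _ = σ * τ := by rw [h5, one_mul]
        rw [h4, hst] at h7
        rw [← h7]
        ring
      have h8 := sq_one h6
      rw [h8] at h3
      have h9 := two_inj k h3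
      rw [h9, mul_one] at h8
      exact hθ1 h8
    intro σ τ hσ hτ hst
    rw [mem_union] at hσ hτ
    rcases hσ with hσ | hσ <;> rcases hτ with hτ | hτ
    · obtain ⟨h0, -, h3⟩ := (h1 σ).1 hσ
      obtain ⟨h0', -, h4⟩ := (h1 τ).1 hτ
      have h5 : σ ^ 2 ^ k * τ ^ 2 ^ k = 1 := by rw [← mul_pow, hst, one_pow]
      rw [h3, h4] at h5
      apply hθθ
      rw [← h5]
      calc θ * θ = θ * θ * (σ * τ) := by rw [hst, mul_one]
        _ = _ := by ring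
    · exact key σ τ hσ hτ hst
    · exact key τ σ hτ hσ (by rw [mul_comm]; exact hst)
    · obtain ⟨h0, -, h3⟩ := (h2 σ).1 hσ
      obtain ⟨h0', -, h4⟩ := (h2 τ).1 hτ
      have h5 : σ ^ 2 ^ k * τ ^ 2 ^ k = 1 := by rw [← mul_pow, hst, one_pow]
      apply hθθ
      calc θ * θ = (σ ^ 2 ^ k * σ) * (τ ^ 2 ^ k * τ) := by rw [h3, h4]
        _ = (σ ^ 2 ^ k * τ ^ 2 ^ k) * (σ * τ) := by ring
        _ = 1 := by rw [h5, hst, one_mul]
  have hne0 : ∀ σ ∈ S1 ∪ S2, σ ≠ 0 := by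
    intro σ hσ
    rw [mem_union] at hσ
    rcases hσ with hσ | hσ
    · exact ((h1 σ).1 hσ).1
    · exact ((h2 σ).1 hσ).1
  have hinj : Set.InjOn (fun σ : Om F => σ + σ⁻¹) (S1 ∪ S2 : Finset (Om F)) := by
    intro σ hσ τ hτ h
    rcases D_eq (hne0 σ hσ) (hne0 τ hτ) h with h3 | h3
    · exact h3
    · exact absurd h3 (hinv σ τ hσ hτ)
  have hcond : ∀ g : F, (g ^ 2 + (g ^ 2 ^ k) ^ 2 + a * (g * g ^ 2 ^ k) + a ^ 2 = 0) ↔
      (g ^ 2 + g ^ 2 ^ k * a * g + (g ^ 2 ^ k + a) ^ 2 = 0) := by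
    intro g
    rw [CharTwo.add_sq]
    constructor <;> intro h <;> rw [← h] <;> ring
  have hfrob : ∀ (σ : Om F) (g : F), σ + σ⁻¹ = io g → σ ^ 2 ^ k + (σ ^ 2 ^ k)⁻¹ = io (g ^ 2 ^ k) := by
    intro σ g h
    rw [← inv_pow, ← add_pow_char_pow, h]
    unfold io
    rw [map_pow]
  have himg : (univ.filter fun g : F => g ^ 2 + (g ^ 2 ^ k) ^ 2 + a * (g * g ^ 2 ^ k) + a ^ 2 = 0).image
      (fun g => (io g : Om F)) = (S1 ∪ S2).image (fun σ : Om F => σ + σ⁻¹) := by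
    ext c
    simp only [mem_image, mem_filter, mem_univ, true_and]
    constructor
    · rintro ⟨g, hg, rfl⟩
      obtain ⟨σ, hσ0, hσ⟩ := ex_theta (io g)
      have hP := dich hq hσ0 hσ
      have hτ0 : σ ^ 2 ^ k ≠ 0 := pow_ne_zero _ hσ0
      rw [hcond, quad hτ0 hθ0 (hfrob σ g hσ) ha] at hg
      have hPi : (σ⁻¹) ^ Fintype.card F = σ⁻¹ ∨ (σ⁻¹) ^ (Fintype.card F + 1) = 1 := by
        rcases hP with h | h
        · left
          rw [inv_pow, h]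
        · right
          rw [inv_pow, h, inv_one]
      have hDi : σ⁻¹ + (σ⁻¹)⁻¹ = io g := by rw [inv_inv, add_comm, hσ]
      rcases hg with hg | hg
      · rw [← hσ] at hg
        rcases D_eq hσ0 (mul_ne_zero hτ0 hθ0) hg with h | h
        · refine ⟨σ⁻¹, mem_union_left _ ((h1 _).2 ⟨inv_ne_zero hσ0, hPi, ?_⟩), hDi⟩
          rw [inv_pow]
          field_simp
          rw [mul_comm]
          rw [mul_comm] at h
          first | exact h | exact h.symm | (rw [h]; ring)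
        · refine ⟨σ⁻¹, mem_union_right _ ((h2 _).2 ⟨inv_ne_zero hσ0, hPi, ?_⟩), hDi⟩
          rw [inv_pow, ← mul_inv, inv_eq_iff_eq_inv]
          exact eq_inv_of_mul_eq_one_left (by rw [← h]; ring)
      · rw [← hσ] at hg
        rcases D_eq hσ0 (mul_ne_zero hτ0 (inv_ne_zero hθ0)) hg with h | h
        · refine ⟨σ, mem_union_left _ ((h1 _).2 ⟨hσ0, hP, ?_⟩), hσ⟩
          have : θ * σ = θ * (σ ^ 2 ^ k * θ⁻¹) := by rw [← h]
          rw [this]
          field_simp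
        · refine ⟨σ, mem_union_right _ ((h2 _).2 ⟨hσ0, hP, ?_⟩), hσ⟩
          have : σ ^ 2 ^ k * σ = θ * (σ * (σ ^ 2 ^ k * θ⁻¹)) := by
            field_simp
          rw [this, h, mul_one]
    · rintro ⟨σ, hσ, rfl⟩
      have hσ0 := hne0 σ hσ
      have hτ0 : σ ^ 2 ^ k ≠ 0 := pow_ne_zero _ hσ0
      rw [mem_union] at hσ
      have hP : σ ^ Fintype.card F = σ ∨ σ ^ (Fintype.card F + 1) = 1 := by
        rcases hσ with hσ | hσ
        · exact ((h1 σ).1 hσ).2.1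
        · exact ((h2 σ).1 hσ).2.1
      obtain ⟨g, hg⟩ := D_mem hq hP
      refine ⟨g, ?_, hg⟩
      rw [hcond, quad hτ0 hθ0 (hfrob σ g hg.symm) ha]
      right
      rcases hσ with hσ | hσ
      · obtain ⟨-, -, h3⟩ := (h1 σ).1 hσ
        have h4 : σ ^ 2 ^ k * θ⁻¹ = σ := by
          rw [h3]
          field_simp
        rw [h4, hg]
      · obtain ⟨-, -, h3⟩ := (h2 σ).1 hσ
        have h4 : σ ^ 2 ^ k * θ⁻¹ = σ⁻¹ := by
          rw [← h3]
          field_simp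
        rw [h4, hg, inv_inv, add_comm]
  unfold Nk
  rw [← card_image_of_injective _ (fun a b h => io_inj h), himg, card_image_of_injOn hinj,
    card_union_of_disjoint hdisj]

/-- from the two equations to powers -/
lemma iff1 {k : ℕ} {θ σ : Om F} (hσ : σ ≠ 0) : σ ^ 2 ^ k = θ * σ ↔ σ ^ (2 ^ k - 1) = θ := by
  have h1 : σ ^ 2 ^ k = σ ^ (2 ^ k - 1) * σ := by
    rw [← pow_succ]
    congr 1
    have : 1 ≤ 2 ^ k := Nat.one_le_two_pow
    omega
  rw [h1]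
  constructor
  · intro h
    exact mul_right_cancel₀ hσ h
  · intro h
    rw [h]

lemma q_one (hq : Fintype.card F = 2 ^ n) (hn : Odd n) : 2 ≤ Fintype.card F := by
  rw [hq]
  obtain ⟨m, rfl⟩ := hn
  calc 2 = 2 ^ 1 := by norm_num
    _ ≤ 2 ^ (2 * m + 1) := Nat.pow_le_pow_right (by norm_num) (by omega)

/-- fixed points of Frobenius and powers -/
lemma fix_iff {Q : ℕ} (hQ : 2 ≤ Q) {σ : Om F} : (σ ≠ 0 ∧ σ ^ Q = σ) ↔ σ ^ (Q - 1) = 1 := by
  have h1 : σ ^ Q = σ ^ (Q - 1) * σ := by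
    rw [← pow_succ]
    congr 1
    omega
  constructor
  · rintro ⟨h0, h⟩
    rw [h1] at h
    exact mul_right_cancel₀ h0 (by rw [one_mul]; exact h)
  · intro h
    refine ⟨?_, by rw [h1, h, one_mul]⟩
    rintro rfl
    rw [zero_pow (by omega)] at h
    exact zero_ne_one h

lemma cnt_main {k : ℕ} (hn : Odd n) (hq : Fintype.card F = 2 ^ n)
    (hkn : Nat.Coprime k n) {a : F} (ha : a ≠ 0) : (Nk F k a : ℂ) = 2 + Gf F a := by
  classical
  have hQ := q_one hq hn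
  obtain ⟨θ, hθ0, hθ⟩ := ex_theta (io a)
  have hθ1 : θ ≠ 1 := by
    rintro rfl
    exact ha (c_zero hθ)
  rcases dich hq hθ0 hθ with hf | hf
  · -- split
    have hθN := (fix_iff hQ).1 ⟨hθ0, hf⟩
    have hex : ∀ σ : Om F, σ ≠ 0 → (σ ^ 2 ^ k = θ * σ ∨ σ ^ 2 ^ k * σ = θ) →
        σ ^ (Fintype.card F + 1) ≠ 1 := by
      intro σ h0 h h1
      apply hθ1
      refine both hf ?_
      have h2 : (σ ^ 2 ^ k) ^ (Fintype.card F + 1) = 1 := by
        rw [← pow_mul, mul_comm, pow_mul, h1, one_pow]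
      rcases h with h | h
      · rw [h, mul_pow, h1, mul_one] at h2
        exact h2
      · rw [← h, mul_pow, h1, h2, mul_one]
    obtain ⟨S1, hc1, h1⟩ := count_one (m := 2 ^ k - 1) (N := Fintype.card F - 1) (by omega)
      (by rw [hq]; exact g1 hkn) hθN
    obtain ⟨S2, hc2, h2⟩ := count_one (m := 2 ^ k + 1) (N := Fintype.card F - 1) (by omega)
      (by rw [hq]; exact g2 hn hkn) hθN
    have key := core hq hθ0 hθ1 hθ k (S1 := S1) (S2 := S2) (fun σ => by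
      rw [h1, ← fix_iff hQ]
      constructor
      · rintro ⟨⟨h3, h4⟩, h5⟩
        exact ⟨h3, Or.inl h4, (iff1 h3).2 h5⟩
      · rintro ⟨h3, h4, h5⟩
        refine ⟨⟨h3, ?_⟩, (iff1 h3).1 h5⟩
        rcases h4 with h4 | h4
        · exact h4
        · exact absurd h4 (hex σ h3 (Or.inl h5))) (fun σ => by
      rw [h2, ← fix_iff hQ, pow_succ]
      constructor
      · rintro ⟨⟨h3, h4⟩, h5⟩
        exact ⟨h3, Or.inl h4, h5⟩
      · rintro ⟨h3, h4, h5⟩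
        refine ⟨⟨h3, ?_⟩, h5⟩
        rcases h4 with h4 | h4
        · exact h4
        · exact absurd h4 (hex σ h3 (Or.inr h5)))
    rw [key, hc1, hc2, G_fix hn hq hθ0 hθ hf, if_neg hθ1]
    norm_num
  · -- nonsplit
    obtain ⟨K, hK⟩ := arith hn
    have hN : Fintype.card F + 1 = 3 * K := by rw [hq]; exact hK
    have hK0 : 0 < K := by omega
    obtain ⟨w, hw1, hw⟩ := ex_w F
    have hex : ∀ σ : Om F, σ ≠ 0 → (σ ^ 2 ^ k = θ * σ ∨ σ ^ 2 ^ k * σ = θ) →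
        σ ^ Fintype.card F ≠ σ := by
      intro σ h0 h h1
      apply hθ1
      refine both ?_ hf
      have h2 : (σ ^ 2 ^ k) ^ Fintype.card F = σ ^ 2 ^ k := by
        rw [← pow_mul, mul_comm, pow_mul, h1]
      rcases h with h | h
      · rw [h, mul_pow, h1] at h2
        exact mul_right_cancel₀ h0 h2
      · rw [← h, mul_pow, h1, h2]
    have hne : ∀ σ : Om F, σ ^ (Fintype.card F + 1) = 1 → σ ≠ 0 := by
      rintro σ h rfl
      rw [zero_pow (Nat.succ_ne_zero _)] at h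
      exact zero_ne_one h
    have hS1 : ∀ S : Finset (Om F), (∀ σ, σ ∈ S ↔ (σ ^ (Fintype.card F + 1) = 1 ∧
        σ ^ (2 ^ k - 1) = θ)) → (∀ σ, σ ∈ S ↔ (σ ≠ 0 ∧ (σ ^ Fintype.card F = σ ∨
        σ ^ (Fintype.card F + 1) = 1) ∧ σ ^ 2 ^ k = θ * σ)) := by
      intro S h σ
      rw [h]
      constructor
      · rintro ⟨h3, h4⟩
        exact ⟨hne σ h3, Or.inr h3, (iff1 (hne σ h3)).2 h4⟩
      · rintro ⟨h3, h4, h5⟩
        refine ⟨?_, (iff1 h3).1 h5⟩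
        rcases h4 with h4 | h4
        · exact absurd h4 (hex σ h3 (Or.inl h5))
        · exact h4
    have hS2 : ∀ S : Finset (Om F), (∀ σ, σ ∈ S ↔ (σ ^ (Fintype.card F + 1) = 1 ∧
        σ ^ (2 ^ k + 1) = θ)) → (∀ σ, σ ∈ S ↔ (σ ≠ 0 ∧ (σ ^ Fintype.card F = σ ∨
        σ ^ (Fintype.card F + 1) = 1) ∧ σ ^ 2 ^ k * σ = θ)) := by
      intro S h σ
      rw [h, pow_succ σ (2 ^ k)]
      constructor
      · rintro ⟨h3, h4⟩
        exact ⟨hne σ h3, Or.inr h3, h4⟩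
      · rintro ⟨h3, h4, h5⟩
        refine ⟨?_, h5⟩
        rcases h4 with h4 | h4
        · exact absurd h4 (hex σ h3 (Or.inr h5))
        · exact h4
    have three : ∀ m : ℕ, Nat.gcd m (Fintype.card F + 1) = 3 → ∃ S : Finset (Om F),
        (S.card : ℂ) = 1 + Gf F a ∧ ∀ σ, σ ∈ S ↔ (σ ^ (Fintype.card F + 1) = 1 ∧ σ ^ m = θ) := by
      intro m hm
      rw [G_mu hK hq hθ hf, if_neg hθ1]
      by_cases hc : θ ^ K = 1
      · obtain ⟨S, h3, h4⟩ := count_three hN hK0 hm hw1 hw hc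
        refine ⟨S, ?_, h4⟩
        rw [h3, if_pos hc]
        norm_num
      · obtain ⟨S, h3, h4⟩ := count_zero hN hm hc
        refine ⟨S, ?_, h4⟩
        rw [h3, if_neg hc]
        norm_num
    rcases Nat.even_or_odd k with hk | hk
    · obtain ⟨S1, hc1, h1⟩ := three (2 ^ k - 1) (by rw [hq]; exact g4 hn hk hkn)
      obtain ⟨S2, hc2, h2⟩ := count_one (m := 2 ^ k + 1) (N := Fintype.card F + 1) (by omega)
        (by rw [hq]; exact g7 hk hkn) hf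
      rw [core hq hθ0 hθ1 hθ k (hS1 S1 h1) (hS2 S2 h2), hc2]
      push_cast
      rw [hc1]
      ring
    · obtain ⟨S1, hc1, h1⟩ := count_one (m := 2 ^ k - 1) (N := Fintype.card F + 1) (by omega)
        (by rw [hq]; exact g3 hk hkn) hf
      obtain ⟨S2, hc2, h2⟩ := three (2 ^ k + 1) (by rw [hq]; exact g6 hn hk hkn)
      rw [core hq hθ0 hθ1 hθ k (hS1 S1 h1) (hS2 S2 h2), hc1]
      push_cast
      rw [hc2]
      ring

end

/-- **Piece CNT.** -/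
theorem t_CNT : S_CNT := by
  intro F _ _ _ _ n k hn hq _ hkn a ha
  have : CharP F 2 := charP_of_injective_algebraMap (algebraMap (ZMod 2) F).injective 2
  exact cnt_main hn hq hkn ha

end Pool.Agent.V7H24.BS
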